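import Pool.Agent.H548R3.NoAP
import Pool.Agent.H548R3.PAP
import Pool.Agent.H548R3.PConstr
import Pool.Agent.H548R3.PMult
import Pool.Agent.H548R3.Snow

/-!
A countable metric space without accumulation points whose Lipschitz free `p`-spaces fail the
approximation property, for all `p` in `(0, 1]`.
-/

set_option autoImplicit false
set_option linter.unusedSectionVars false

open Set Filter Topology
open Pool.Agent.H548R3.PFree Pool.Agent.H548R3.NoAP
open Pool.Agent.Helper362.Hap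

namespace Pool.Agent.Y247.DAP

/-- test data for the failure of the approximation property -/
def Bad (X : Type) [NormedAddCommGroup X] [NormedSpace ℝ X] : Prop :=
  ∃ (v : ℕ → X) (J : Type) (_ : Countable J) (N : J → ℕ)
      (a : J → ℕ → ℝ), (Summable fun i => ‖v i‖) ∧
      Tendsto (fun j => ∑ i ∈ Finset.range (N j), a j i • v i) cofinite (𝓝 0) ∧
      ∀ T : X →L[ℝ] X, FiniteDimensional ℝ (LinearMap.range (T : X →ₗ[ℝ] X)) →
        ∃ j, 1 / 8 < ‖T (∑ i ∈ Finset.range (N j), a j i • v i) -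
          ∑ i ∈ Finset.range (N j), a j i • v i‖

/-- a separable Banach space with test data -/
theorem exists_sep (X : Type) [NormedAddCommGroup X] [NormedSpace ℝ X] [CompleteSpace X]
    (hX : Bad X) : ∃ S : Submodule ℝ X, IsClosed (S : Set X) ∧
      TopologicalSpace.SeparableSpace S ∧ Bad S := by
  obtain ⟨v, J, hJ, N, a, hv, h0, hT⟩ := hX
  set S : Submodule ℝ X := (Submodule.span ℝ (Set.range v)).topologicalClosure with hS
  have hvS : ∀ i, v i ∈ S := fun i =>
    Submodule.le_topologicalClosure _ (Submodule.subset_span ⟨i, rfl⟩)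
  have hsep : TopologicalSpace.IsSeparable (S : Set X) := by
    have h1 := (Set.countable_range v).isSeparable
    exact (h1.span (R := ℝ)).closure
  refine ⟨S, Submodule.isClosed_topologicalClosure _, hsep.separableSpace, ?_⟩
  have hcoe : ∀ j, ((∑ i ∈ Finset.range (N j), a j i • (⟨v i, hvS i⟩ : S) : S) : X) =
      ∑ i ∈ Finset.range (N j), a j i • v i := by
    intro j
    rw [Submodule.coe_sum]
    rfl
  refine ⟨fun i => ⟨v i, hvS i⟩, J, hJ, N, a, hv, ?_, fun T hTf => ?_⟩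
  · rw [tendsto_subtype_rng]
    refine h0.congr fun j => ?_
    exact (hcoe j).symm
  · set V : Submodule ℝ S := LinearMap.range (T : S →ₗ[ℝ] S) with hV
    let T₀ : S →L[ℝ] V := T.codRestrict V fun x => LinearMap.mem_range_self (T : S →ₗ[ℝ] S) x
    obtain ⟨g, hg⟩ := T₀.exist_extension_of_finiteDimensional_range
    obtain ⟨j, hj⟩ := hT (S.subtypeL.comp (V.subtypeL.comp g)) (by
      have h1 : LinearMap.range ((S.subtypeL.comp (V.subtypeL.comp g) : X →L[ℝ] X) : X →ₗ[ℝ] X) ≤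
          V.map S.subtype := by
        rintro _ ⟨y, rfl⟩
        exact ⟨V.subtype (g y), (g y).2, rfl⟩
      exact Submodule.finiteDimensional_of_le h1)
    refine ⟨j, ?_⟩
    set w : S := ∑ i ∈ Finset.range (N j), a j i • (⟨v i, hvS i⟩ : S) with hw
    have hwc : (w : X) = ∑ i ∈ Finset.range (N j), a j i • v i := hcoe j
    rw [← hwc] at hj
    have h2 : g (w : X) = T₀ w := by rw [hg]; rfl
    have h3 : (S.subtypeL.comp (V.subtypeL.comp g)) (w : X) = ((T w : S) : X) := by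
      show ((g (w : X) : V) : S).1 = _
      rw [h2]
      rfl
    rw [h3] at hj
    exact hj

section

variable {X : Type} [NormedAddCommGroup X] [NormedSpace ℝ X]

/-- the points `(d i, 1 / (j + 1))`, `i ≤ j` -/
def Ms (d : ℕ → X) : Set (X × ℝ) := {q | ∃ i j : ℕ, i ≤ j ∧ q = (d i, 1 / ((j : ℝ) + 1))}

lemma countable_Ms (d : ℕ → X) : (Ms d).Countable := by
  refine (Set.countable_range fun q : ℕ × ℕ => ((d q.1, 1 / ((q.2 : ℝ) + 1)) : X × ℝ)).mono ?_
  rintro _ ⟨i, j, -, rfl⟩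
  exact ⟨(i, j), rfl⟩

lemma isolated_Ms (d : ℕ → X) (x : Ms d) : ∃ r : ℝ, 0 < r ∧ ∀ y : Ms d, dist y x < r → y = x := by
  obtain ⟨_, i, j, hij, rfl⟩ := x
  set x : X × ℝ := (d i, 1 / ((j : ℝ) + 1)) with hx
  let U : Set (X × ℝ) := {q | 1 / ((j : ℝ) + 2) < q.2}
  have hU : IsOpen U := isOpen_lt continuous_const continuous_snd
  have hxU : x ∈ U := by
    show 1 / ((j : ℝ) + 2) < 1 / ((j : ℝ) + 1)
    exact one_div_lt_one_div_of_lt (by positivity) (by linarith)
  have hfin : (Ms d ∩ U).Finite := by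
    refine ((Set.finite_Iic (j, j)).image
      fun q : ℕ × ℕ => ((d q.1, 1 / ((q.2 : ℝ) + 1)) : X × ℝ)).subset ?_
    rintro _ ⟨⟨i', j', hij', rfl⟩, hq⟩
    have h1 : 1 / ((j : ℝ) + 2) < 1 / ((j' : ℝ) + 1) := hq
    have h2 : (j' : ℝ) + 1 < (j : ℝ) + 2 := (one_div_lt_one_div (by positivity) (by positivity)).1 h1
    have h3 : j' ≤ j := by
      have : (j' : ℝ) < j + 1 := by linarith
      exact_mod_cast Nat.lt_succ_iff.1 (by exact_mod_cast this)
    exact ⟨(i', j'), ⟨hij'.trans h3, h3⟩, rfl⟩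
  have hF : IsClosed ((Ms d ∩ U) \ {x}) := (hfin.subset Set.sdiff_subset).isClosed
  have hO : IsOpen (U ∩ ((Ms d ∩ U) \ {x})ᶜ) := hU.inter hF.isOpen_compl
  obtain ⟨r, hr, hr2⟩ := Metric.isOpen_iff.1 hO x ⟨hxU, fun h => h.2 rfl⟩
  refine ⟨r, hr, fun y hy => ?_⟩
  have h1 : (y : X × ℝ) ∈ Metric.ball x r := hy
  have h2 := hr2 h1
  by_contra hne
  exact h2.2 ⟨⟨y.2, h2.1⟩, fun h => hne (Subtype.ext h)⟩

/-- sequences in `Ms d` converging to points of the limit level -/
lemma exists_seq {d : ℕ → X} (hd : DenseRange d) (x : X) :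
    ∃ s : ℕ → Ms d, Tendsto (fun k => ((s k : X × ℝ))) atTop (𝓝 (x, 0)) := by
  have h1 : ∀ k : ℕ, ∃ i, dist x (d i) < 1 / ((k : ℝ) + 1) := fun k =>
    hd.exists_dist_lt x (by positivity)
  choose i hi using h1
  refine ⟨fun k => ⟨(d (i k), 1 / (((max (i k) k : ℕ) : ℝ) + 1)), i k, max (i k) k,
    le_max_left _ _, rfl⟩, ?_⟩
  refine Tendsto.prodMk_nhds ?_ ?_
  · rw [tendsto_iff_dist_tendsto_zero]
    refine squeeze_zero (fun _ => dist_nonneg) (fun k => ?_)
      tendsto_one_div_add_atTop_nhds_zero_nat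
    rw [dist_comm]
    exact (hi k).le
  · refine squeeze_zero (fun _ => by positivity) (fun k => ?_)
      tendsto_one_div_add_atTop_nhds_zero_nat
    refine one_div_le_one_div_of_le (by positivity) ?_
    have : (k : ℝ) ≤ ((max (i k) k : ℕ) : ℝ) := by exact_mod_cast le_max_right _ _
    linarith

/-- the base point -/
def bp (d : ℕ → X) : Ms d := ⟨(d 0, 1), 0, 0, le_rfl, by norm_num⟩

theorem not_hasAP [CompleteSpace X] (hX : Bad X) {d : ℕ → X} (hd : DenseRange d) {p : ℝ}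
    (h0 : 0 < p) (h1 : p ≤ 1) (Z : Type) [NormedAddCommGroup Z] [Module ℝ Z] (δ : Ms d → Z)
    (h : IsLipschitzFree p (Ms d) (bp d) Z δ) : ¬ HasAP p Z := by
  have hp : Fact (0 < p ∧ p ≤ 1) := ⟨h0, h1⟩
  have hZc : CompleteSpace Z := h.banach.2
  have hiso : ∀ a b, ‖δ a - δ b‖ = dist a b ^ p := fun a b => norm_delta_sub h a b
  obtain ⟨β, hβ, -⟩ := h.lift (Snow p X) (isPBanach_snow p X)
    (fun q => toSnow ((q : X × ℝ).1 - d 0)) (by
      show toSnow (((bp d : Ms d) : X × ℝ).1 - d 0) = 0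
      show ((d 0 - d 0 : X)) = 0
      exact sub_self _)
    ⟨1, fun x y => by
      rw [pnorm_snow, one_mul]
      show ‖((x : X × ℝ).1 - d 0) - ((y : X × ℝ).1 - d 0)‖ ≤ _
      rw [sub_sub_sub_cancel_right, ← dist_eq_norm]
      exact le_max_left _ _⟩
  have hδc : UniformContinuous δ := by
    rw [Metric.uniformContinuous_iff]
    intro ε hε
    refine ⟨ε ^ (1 / p), by positivity, fun {a b} hab => ?_⟩
    rw [dist_eq_norm, hiso]
    have := Real.rpow_lt_rpow dist_nonneg hab h0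
    rwa [← Real.rpow_mul hε.le, one_div_mul_cancel h0.ne', Real.rpow_one] at this
  have hex : ∀ x : X, ∃ s : ℕ → Ms d, Tendsto (fun k => ((s k : X × ℝ))) atTop (𝓝 (x + d 0, 0)) ∧
      ∃ z, Tendsto (fun k => δ (s k)) atTop (𝓝 z) := by
    intro x
    obtain ⟨s, hs⟩ := exists_seq hd (x + d 0)
    refine ⟨s, hs, cauchySeq_tendsto_of_complete ?_⟩
    have hc : CauchySeq s := by
      rw [Metric.cauchySeq_iff]
      intro ε hε
      obtain ⟨K, hK⟩ := Metric.cauchySeq_iff.1 hs.cauchySeq ε hε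
      exact ⟨K, fun m hm n hn => hK m hm n hn⟩
    exact hc.map hδc
  choose s hs1 z hz using hex
  refine not_hasAP_of_section (X := X) h0 h.banach.1 z zero_le_one (fun x y => ?_)
    ((snowCLM p X).comp β) (fun x => ?_) hX
  · rw [one_mul]
    have h2 : Tendsto (fun k => ‖δ (s x k) - δ (s y k)‖) atTop (𝓝 ‖z x - z y‖) :=
      ((hz x).sub (hz y)).norm
    have h3 : Tendsto (fun k => (dist (s x k : X × ℝ) (s y k : X × ℝ)) ^ p) atTop
        (𝓝 ((dist ((x + d 0, 0) : X × ℝ) (y + d 0, 0)) ^ p)) :=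
      ((hs1 x).dist (hs1 y)).rpow_const (Or.inr h0.le)
    have h4 : ‖z x - z y‖ = (dist ((x + d 0, 0) : X × ℝ) (y + d 0, 0)) ^ p := by
      refine tendsto_nhds_unique h2 (h3.congr fun k => ?_)
      rw [hiso]
      rfl
    rw [h4]
    refine Real.rpow_le_rpow dist_nonneg ?_ h0.le
    rw [Prod.dist_eq]
    refine max_le ?_ ?_
    · show dist (x + d 0) (y + d 0) ≤ _
      rw [dist_add_right, dist_eq_norm]
    · show dist (0 : ℝ) 0 ≤ _
      rw [dist_self]
      exact norm_nonneg _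
  · have h5 : Tendsto (fun k => ((snowCLM p X).comp β) (δ (s x k))) atTop
        (𝓝 (((snowCLM p X).comp β) (z x))) :=
      (((snowCLM p X).comp β).continuous.tendsto _).comp (hz x)
    have h6 : Tendsto (fun k => ((s x k : X × ℝ)).1 - d 0) atTop (𝓝 ((x + d 0) - d 0)) :=
      ((continuous_fst.tendsto _).comp (hs1 x)).sub_const _
    have h7 : ∀ k, ((snowCLM p X).comp β) (δ (s x k)) = ((s x k : X × ℝ)).1 - d 0 := by
      intro k
      show ofSnow (β (δ (s x k))) = _
      rw [hβ]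
      rfl
    rw [tendsto_nhds_unique h5 (h6.congr fun k => (h7 k).symm), add_sub_cancel_right]

end

/-- the main theorem -/
theorem main : ∃ (M : Type) (_ : MetricSpace M) (o : M), Countable M ∧
    (∀ x : M, ∃ r : ℝ, 0 < r ∧ ∀ y : M, dist y x < r → y = x) ∧ ∀ p : ℝ, 0 < p → p ≤ 1 →
    (∃ (Z : Type) (_ : NormedAddCommGroup Z) (_ : Module ℝ Z) (δ : M → Z),
      IsLipschitzFree p M o Z δ) ∧
    ∀ (Z : Type) [NormedAddCommGroup Z] [Module ℝ Z] (δ : M → Z),
      IsLipschitzFree p M o Z δ → ¬ HasAP p Z := by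
  obtain ⟨S, hS, hsep, hbad⟩ := exists_sep E (exists_data dat)
  have hc : CompleteSpace S := hS.completeSpace_coe
  obtain ⟨d, hd⟩ := TopologicalSpace.exists_dense_seq S
  refine ⟨Ms d, inferInstance, bp d, (countable_Ms d).to_subtype, isolated_Ms d,
    fun p h0 h1 => ⟨?_, fun Z _ _ δ h => not_hasAP hbad hd h0 h1 Z δ h⟩⟩
  have hp : Fact (0 < p ∧ p ≤ 1) := ⟨h0, h1⟩
  exact ⟨FF p (Ms d), inferInstance, inferInstance, fun x => cl x (bp d), isLipschitzFree (bp d)⟩

end Pool.Agent.Y247.DAP
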